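import Mathlib
import Pool.Agent.Erdos456.P6

set_option autoImplicit false

open Filter Topology

namespace Pool.Agent.Results.MP_06aaae_nt.EqualityPositiveUpperDensity

/-- The set of positive integers `n` for which the least prime congruent to one modulo `n` equals
the least positive `m` with `n ∣ φ(m)` has positive upper natural density. -/
theorem result :
    ∃ c : ℝ, 0 < c ∧ ∃ᶠ N : ℕ in atTop,
      c ≤ (({n : ℕ | 1 ≤ n ∧ n ≤ N ∧
        sInf {p : ℕ | p.Prime ∧ p ≡ 1 [MOD n]} =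
          sInf {m : ℕ | 0 < m ∧ n ∣ Nat.totient m}}).ncard : ℝ) / (N : ℝ) := by
  by_contra hcon
  push Not at hcon
  apply Pool.Agent.Erdos456.eq_not_density_zero'
  rw [tendsto_order]
  constructor
  · intro a ha
    filter_upwards with N
    exact lt_of_lt_of_le ha (by positivity)
  · intro a ha
    have h1 := hcon a ha
    filter_upwards [h1] with N hN
    refine lt_of_le_of_lt ?_ hN
    have hfin : ({n : ℕ | 1 ≤ n ∧ n ≤ N ∧
        sInf {p : ℕ | p.Prime ∧ p ≡ 1 [MOD n]} =
          sInf {m : ℕ | 0 < m ∧ n ∣ Nat.totient m}}).Finite :=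
      (Set.finite_Iic N).subset (fun n hn => hn.2.1)
    have hsub : Pool.Agent.Erdos456.EqS ∩ Set.Iio N ⊆ {n : ℕ | 1 ≤ n ∧ n ≤ N ∧
        sInf {p : ℕ | p.Prime ∧ p ≡ 1 [MOD n]} =
          sInf {m : ℕ | 0 < m ∧ n ∣ Nat.totient m}} := by
      rintro n ⟨⟨h1, h2⟩, h3⟩
      exact ⟨h1, (le_of_lt h3), h2⟩
    have hle := Set.ncard_le_ncard hsub hfin
    gcongr

end Pool.Agent.Results.MP_06aaae_nt.EqualityPositiveUpperDensity
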